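import Pool.Agent.N457.AX.Lg

/-!
# Continuation of uniform asymptotic expansions of functions without zeros
-/

set_option autoImplicit false

namespace Pool.Agent.N457.AX

open Finset Filter Topology Metric
open Pool.Agent.W719.AX

theorem uxmono {E : Type} {Y : ℕ → E → ℂ} {A : ℕ → E → ℂ} {S T : Set E} (h : T ⊆ S)
    (hY : UX Y A S) : UX Y A T := by
  intro K
  obtain ⟨C, hC⟩ := hY K
  exact ⟨C, hC.mono fun N hN p hp => hN p (h hp)⟩

theorem uxslice {Q : Type} {U : Set ℂ} {S : Set Q} {Y : ℕ → ℂ × Q → ℂ} {A : ℕ → ℂ × Q → ℂ}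
    (hY : UX Y A (U ×ˢ S)) {q : Q} (hq : q ∈ S) :
    UX (fun N z => Y N (z, q)) (fun k z => A k (z, q)) U := by
  intro K
  obtain ⟨C, hC⟩ := hY K
  exact ⟨C, hC.mono fun N hN z hz => hN (z, q) ⟨hz, hq⟩⟩

theorem re_of_exp {w z : ℂ} (h : Complex.exp w = z) : w.re = Real.log ‖z‖ := by
  rw [← h, Complex.norm_exp, Real.log_exp]

theorem cont' (c : ℂ) (r R' R : ℝ) (hr : 0 < r) (hrR' : r < R') (hR'R : R' < R)
    (Q : Type) (S : Set Q) (Y : ℕ → ℂ × Q → ℂ) (F : ℂ × Q → ℂ) (n : ℕ → ℂ) (c₀ : ℝ)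
    (A : ℕ → ℂ × Q → ℂ)
    (hY : ∀ᶠ N : ℕ in atTop, ∀ q ∈ S, DifferentiableOn ℂ (fun z => Y N (z, q)) (ball c R))
    (hF : ∀ q ∈ S, DifferentiableOn ℂ (fun z => F (z, q)) (ball c R))
    (hlog : ∀ ε : ℝ, 0 < ε → ∀ᶠ N : ℕ in atTop, ∀ x ∈ ball c R ×ˢ S,
      Y N x ≠ 0 ∧ |Real.log ‖Y N x‖ - N * (F x).re| ≤ ε * N)
    (hU : UX (fun N x => n N * Complex.exp (-(N * F x)) * Y N x) A (ball c r ×ˢ S))
    (hc0 : 0 < c₀) (hA : ∀ x ∈ ball c r ×ˢ S, c₀ ≤ ‖A 0 x‖) :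
    ∃ (A' : ℕ → ℂ × Q → ℂ) (c₁ : ℝ), 0 < c₁ ∧
    UX (fun N x => n N * Complex.exp (-(N * F x)) * Y N x) A' (ball c R' ×ˢ S) ∧
    (∀ k, ∀ q ∈ S, DifferentiableOn ℂ (fun z => A' k (z, q)) (ball c R')) ∧
    ∀ x ∈ ball c R' ×ˢ S, c₁ ≤ ‖A' 0 x‖ := by
  rcases S.eq_empty_or_nonempty with rfl | ⟨q₀, hq₀⟩
  · refine ⟨A, 1, one_pos, fun K => ⟨0, by simp⟩, by simp, by simp⟩
  have hR0 : 0 < R := by linarith
  obtain ⟨Z, hZ⟩ : ∃ Z : ℕ → ℂ × Q → ℂ,
      Z = fun N x => n N * Complex.exp (-(N * F x)) * Y N x := ⟨_, rfl⟩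
  rw [← hZ] at hU ⊢
  obtain ⟨M, hM0, hM⟩ := Pool.Agent.W303.AX.uxbd' hU 0
  have hcr : c ∈ ball c r := mem_ball_self hr
  have hcR : c ∈ ball c R := mem_ball_self hR0
  have hcM : c₀ ≤ M := (hA (c, q₀) ⟨hcr, hq₀⟩).trans (hM (c, q₀) ⟨hcr, hq₀⟩)
  have hrR : ball c r ⊆ ball c R := ball_subset_ball (by linarith)
  -- closeness on the small disc
  have hclose : ∀ᶠ N : ℕ in atTop, ∀ x ∈ ball c r ×ˢ S, ‖Z N x - A 0 x‖ ≤ c₀ / 2 := by
    obtain ⟨C1, hC1⟩ := hU 1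
    have hsmall : ∀ᶠ N : ℕ in atTop, C1 / (N : ℝ) < c₀ / 2 :=
      (tendsto_const_div_atTop_nhds_zero_nat C1).eventually (gt_mem_nhds (by positivity))
    filter_upwards [hC1, hsmall] with N h1 h2 x hx
    have h3 := h1 x hx
    rw [Finset.sum_range_one] at h3
    simp only [pow_zero, div_one, pow_one] at h3
    exact h3.trans h2.le
  -- differentiability
  have hZd : ∀ᶠ N : ℕ in atTop, ∀ q ∈ S, DifferentiableOn ℂ (fun z => Z N (z, q)) (ball c R) := by
    filter_upwards [hY] with N hN q hq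
    have h1 := hN q hq
    have h2 := hF q hq
    rw [hZ]
    exact (DifferentiableOn.const_mul ((h2.const_mul _).neg.cexp) _).mul h1
  have hAd : ∀ q ∈ S, DifferentiableOn ℂ (fun z => A 0 (z, q)) (ball c r) := by
    intro q hq
    refine Pool.Agent.W303.AX.uxan _ _ _ isOpen_ball ?_ (uxslice hU hq) 0
    filter_upwards [hZd] with N hN
    exact (hN q hq).mono hrR
  -- growth
  obtain ⟨D, hD⟩ : ∃ D, D = max |Real.log (c₀ / 2)| |Real.log (M + c₀ / 2)| := ⟨_, rfl⟩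
  have hD0 : 0 ≤ D := by rw [hD]; exact (abs_nonneg _).trans (le_max_left _ _)
  have hgrow : ∀ᶠ N : ℕ in atTop, ∀ x ∈ ball c R ×ˢ S,
      Z N x ≠ 0 ∧ |Real.log ‖Z N x‖| ≤ (D + 2) * N := by
    filter_upwards [hclose, hlog 1 one_pos, eventually_ge_atTop 1] with N h1 h2 h3
    have hN1 : (1 : ℝ) ≤ N := by exact_mod_cast h3
    have hZ0 := h1 (c, q₀) ⟨hcr, hq₀⟩
    have hA0 := hA (c, q₀) ⟨hcr, hq₀⟩
    have hM' := hM (c, q₀) ⟨hcr, hq₀⟩
    have hlow : c₀ / 2 ≤ ‖Z N (c, q₀)‖ := by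
      have := norm_sub_norm_le (A 0 (c, q₀)) (Z N (c, q₀))
      rw [norm_sub_rev] at this
      linarith
    have hup : ‖Z N (c, q₀)‖ ≤ M + c₀ / 2 := by
      have := norm_sub_norm_le (Z N (c, q₀)) (A 0 (c, q₀))
      linarith
    have hZpos : 0 < ‖Z N (c, q₀)‖ := lt_of_lt_of_le (by positivity) hlow
    have hlg : |Real.log ‖Z N (c, q₀)‖| ≤ D := by
      rw [hD]
      exact abs_le_max_abs_abs (Real.log_le_log (by positivity) hlow)
        (Real.log_le_log hZpos hup)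
    have hn0 : n N ≠ 0 := by
      intro h
      have : Z N (c, q₀) = 0 := by rw [hZ]; simp [h]
      rw [this, norm_zero] at hZpos
      exact lt_irrefl _ hZpos
    have hform : ∀ x ∈ ball c R ×ˢ S, Z N x ≠ 0 ∧
        Real.log ‖Z N x‖ = Real.log ‖n N‖ + (Real.log ‖Y N x‖ - N * (F x).re) := by
      intro x hx
      have hy := (h2 x hx).1
      constructor
      · rw [hZ]
        exact mul_ne_zero (mul_ne_zero hn0 (Complex.exp_ne_zero _)) hy
      · rw [hZ]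
        simp only
        rw [norm_mul, norm_mul, Complex.norm_exp, Real.log_mul
          (mul_ne_zero (norm_ne_zero_iff.2 hn0) (Real.exp_pos _).ne') (norm_ne_zero_iff.2 hy),
          Real.log_mul (norm_ne_zero_iff.2 hn0) (Real.exp_pos _).ne', Real.log_exp]
        have : (-((N : ℂ) * F x)).re = -(N * (F x).re) := by simp
        rw [this]
        ring
    intro x hx
    refine ⟨(hform x hx).1, ?_⟩
    have e0 := (hform (c, q₀) ⟨hcR, hq₀⟩).2
    have e1 := (hform x hx).2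
    have b0 := (h2 (c, q₀) ⟨hcR, hq₀⟩).2
    have b1 := (h2 x hx).2
    rw [abs_le] at b0 b1 hlg ⊢
    constructor
    · nlinarith [b0.1, b0.2, b1.1, b1.2, hlg.1, hlg.2]
    · nlinarith [b0.1, b0.2, b1.1, b1.2, hlg.1, hlg.2]
  -- the logarithm of the leading coefficient
  have hAne : ∀ x ∈ ball c r ×ˢ S, A 0 x ≠ 0 := by
    intro x hx h
    have := hA x hx
    rw [h, norm_zero] at this
    linarith
  have hlamex : ∀ q ∈ S, ∃ f : ℂ → ℂ, DifferentiableOn ℂ f (ball c r) ∧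
      (∀ z ∈ ball c r, Complex.exp (f z) = A 0 (z, q)) ∧ f c = Complex.log (A 0 (c, q)) := by
    intro q hq
    exact exlog hr (hAd q hq) (fun z hz => hAne _ ⟨hz, hq⟩)
      (Complex.exp_log (hAne _ ⟨hcr, hq⟩))
  choose! lam hlam1 hlam2 hlam3 using hlamex
  obtain ⟨K1, hK1, hbc1⟩ := bc (c := c) (R := r) (R' := r / 2) (by positivity) (by linarith)
  obtain ⟨D1, hD1⟩ : ∃ D1, D1 = max |Real.log c₀| |Real.log M| + Real.pi := ⟨_, rfl⟩
  have hD10 : 0 < D1 := by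
    rw [hD1]
    have : 0 ≤ max |Real.log c₀| |Real.log M| := (abs_nonneg _).trans (le_max_left _ _)
    have := Real.pi_pos
    linarith
  have hlam : ∀ p ∈ ball c (r / 2) ×ˢ S, ‖lam p.2 p.1‖ ≤ K1 * D1 := by
    rintro ⟨z, q⟩ ⟨hz, hq⟩
    have hre : ∀ v ∈ ball c r, |(lam q v).re| ≤ max |Real.log c₀| |Real.log M| := by
      intro v hv
      rw [re_of_exp (hlam2 q hq v hv)]
      have h1 := hA (v, q) ⟨hv, hq⟩
      have h2 := hM (v, q) ⟨hv, hq⟩
      exact abs_le_max_abs_abs (Real.log_le_log hc0 h1)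
        (Real.log_le_log (lt_of_lt_of_le hc0 h1) h2)
    refine hbc1 (lam q) D1 hD10 (hlam1 q hq) ?_ ?_ z hz
    · intro v hv
      have h1 := (abs_le.1 (hre v hv)).2
      have := Real.pi_pos
      linarith
    · refine (Complex.norm_le_abs_re_add_abs_im _).trans ?_
      rw [hD1]
      refine add_le_add (hre c hcr) ?_
      rw [hlam3 q hq, Complex.log_im]
      exact Complex.abs_arg_le_pi _
  -- the quotient
  obtain ⟨w, hw⟩ : ∃ w : ℕ → ℂ × Q → ℂ, w = fun N p => (A 0 p)⁻¹ * (Z N p - A 0 p) := ⟨_, rfl⟩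
  have hwb : ∀ᶠ N : ℕ in atTop, ∀ x ∈ ball c r ×ˢ S, ‖w N x‖ < 1 := by
    filter_upwards [hclose] with N hN x hx
    rw [hw]
    simp only
    rw [norm_mul, norm_inv]
    have h1 := hN x hx
    have h2 := hA x hx
    have h3 : 0 < ‖A 0 x‖ := lt_of_lt_of_le hc0 h2
    rw [inv_mul_lt_iff₀ h3]
    linarith
  have hwe : ∀ N, ∀ x ∈ ball c r ×ˢ S, A 0 x * (1 + w N x) = Z N x := by
    intro N x hx
    have := hAne x hx
    rw [hw]
    simp only
    field_simp
    ring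
  -- the logarithms
  obtain ⟨N0, hN0⟩ := eventually_atTop.1 (hZd.and (hgrow.and (hwb.and (eventually_ge_atTop 1))))
  have hLex : ∀ N, N0 ≤ N → ∀ q ∈ S, ∃ f : ℂ → ℂ, DifferentiableOn ℂ f (ball c R) ∧
      (∀ z ∈ ball c R, Complex.exp (f z) = Z N (z, q)) ∧
      f c = Complex.log (A 0 (c, q)) + Complex.log (1 + w N (c, q)) := by
    intro N hN q hq
    obtain ⟨h1, h2, h3, -⟩ := hN0 N hN
    refine exlog hR0 (h1 q hq) (fun z hz => (h2 (z, q) ⟨hz, hq⟩).1) ?_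
    rw [Complex.exp_add, Complex.exp_log (hAne _ ⟨hcr, hq⟩), Complex.exp_log, hwe N _ ⟨hcr, hq⟩]
    exact Complex.slitPlane_ne_zero (Complex.mem_slitPlane_of_norm_lt_one (h3 _ ⟨hcr, hq⟩))
  choose! L hL1 hL2 hL3 using hLex
  obtain ⟨K2, hK2, hbc2⟩ := bc (c := c) (R := R) (R' := (R' + R) / 2) (by linarith) (by linarith)
  have hLb : ∀ᶠ N : ℕ in atTop, ∀ q ∈ S,
      DifferentiableOn ℂ (fun z => L N q z) (ball c ((R' + R) / 2)) ∧
      ∀ z ∈ ball c ((R' + R) / 2), ‖L N q z‖ ≤ K2 * (D + 2 + 2 * Real.pi) * N := by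
    filter_upwards [eventually_ge_atTop N0] with N hN q hq
    obtain ⟨-, h2, -, h4⟩ := hN0 N hN
    have hN1 : (1 : ℝ) ≤ N := by exact_mod_cast h4
    have hpi := Real.pi_pos
    refine ⟨(hL1 N hN q hq).mono (ball_subset_ball (by linarith)), fun z hz => ?_⟩
    have hre : ∀ v ∈ ball c R, |(L N q v).re| ≤ (D + 2) * N := by
      intro v hv
      rw [re_of_exp (hL2 N hN q hq v hv)]
      exact (h2 (v, q) ⟨hv, hq⟩).2
    rw [mul_assoc]
    refine hbc2 (L N q) ((D + 2 + 2 * Real.pi) * N) (by positivity) (hL1 N hN q hq) ?_ ?_ z hz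
    · intro v hv
      have h1 := (abs_le.1 (hre v hv)).2
      nlinarith
    · refine (Complex.norm_le_abs_re_add_abs_im _).trans ?_
      have h5 := hre c hcR
      have h6 : |(L N q c).im| ≤ 2 * Real.pi := by
        rw [hL3 N hN q hq, Complex.add_im, Complex.log_im, Complex.log_im]
        refine (abs_add_le _ _).trans ?_
        have := Complex.abs_arg_le_pi (A 0 (c, q))
        have := Complex.abs_arg_le_pi (1 + w N (c, q))
        linarith
      nlinarith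
  -- the expansion on the small disc
  have hR0' := Pool.Agent.W67.AX.uxsub M hM hU
  have hR1 := Pool.Agent.W67.AX.uxcmul (fun p => (A 0 p)⁻¹) c₀⁻¹ (by
    intro p hp
    rw [norm_inv]
    exact inv_anti₀ hc0 (hA p hp)) hR0'
  have hR2 := Pool.Agent.W67.AX.uxcomp Pool.Agent.W303.AX.uxmul hR1 (fun p => by simp)
    (fun x => Complex.log (1 + x)) (fun j => (-1) ^ (j + 1) / (j : ℂ)) Pool.Agent.W67.AX.logT
  have hss : ball c (r / 2) ×ˢ S ⊆ ball c r ×ˢ S :=
    Set.prod_mono (ball_subset_ball (by linarith)) (Set.Subset.refl S)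
  have hR3 := Pool.Agent.W67.AX.uxadd
    (Pool.Agent.W67.AX.uxconst (S := ball c (r / 2) ×ˢ S) (fun p => lam p.2 p.1) _ hlam)
    (uxmono hss hR2)
  have hULs := Pool.Agent.W67.AX.congr' (Z := fun N (p : ℂ × Q) => L N p.2 p.1) (by
    filter_upwards [eventually_ge_atTop N0] with N hN
    rintro ⟨z, q⟩ ⟨hz, hq⟩
    obtain ⟨h1, h2, h3, -⟩ := hN0 N hN
    have hzr : z ∈ ball c r := ball_subset_ball (by linarith) hz
    have hwd : DifferentiableOn ℂ (fun z => w N (z, q)) (ball c r) := by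
      rw [hw]
      exact ((hAd q hq).inv fun z hz => hAne _ ⟨hz, hq⟩).mul
        (((h1 q hq).mono hrR).sub (hAd q hq))
    have key : lam q z + Complex.log (1 + w N (z, q)) = L N q z := by
      refine logeq (f := fun z => lam q z + Complex.log (1 + w N (z, q))) (g := fun z => L N q z) hr
        ((hlam1 q hq).add (DifferentiableOn.clog (hwd.const_add _) fun v hv =>
          Complex.mem_slitPlane_of_norm_lt_one (h3 _ ⟨hv, hq⟩))) ((hL1 N hN q hq).mono hrR)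
          ?_ ?_ z hzr
      · intro v hv
        rw [Complex.exp_add, hlam2 q hq v hv, Complex.exp_log, hwe N (v, q) ⟨hv, hq⟩,
          hL2 N hN q hq v (hrR hv)]
        exact Complex.slitPlane_ne_zero (Complex.mem_slitPlane_of_norm_lt_one (h3 (v, q) ⟨hv, hq⟩))
      · rw [hlam3 q hq, hL3 N hN q hq]
    rw [hw] at key
    exact key) hR3
  -- extension
  obtain ⟨a, ha⟩ := extb (c := c) (r := r / 2) (R' := R') (R := (R' + R) / 2) (by positivity)
    (by linarith) (by linarith) (L := fun N (p : ℂ × Q) => L N p.2 p.1) hLb hULs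
  obtain ⟨B', hB', hB0⟩ := Pool.Agent.W67.AX.uxexp Pool.Agent.W303.AX.uxbd
    Pool.Agent.W303.AX.uxmul _ _ _ _ ha
  obtain ⟨M1, hM10, hM1⟩ := Pool.Agent.W303.AX.uxbd' ha 0
  have hR'sub : ball c R' ⊆ ball c R := ball_subset_ball (by linarith)
  have hfin : UX Z B' (ball c R' ×ˢ S) := by
    refine Pool.Agent.W67.AX.congr' ?_ hB'
    filter_upwards [eventually_ge_atTop N0] with N hN
    rintro ⟨z, q⟩ ⟨hz, hq⟩
    exact hL2 N hN q hq z (hR'sub hz)
  refine ⟨B', Real.exp (-M1), Real.exp_pos _, hfin, ?_, ?_⟩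
  · intro k q hq
    refine Pool.Agent.W303.AX.uxan _ _ _ isOpen_ball ?_ (uxslice hfin hq) k
    filter_upwards [hZd] with N hN
    exact (hN q hq).mono hR'sub
  · intro x hx
    rw [hB0 x, Complex.norm_exp, Real.exp_le_exp]
    have h1 := hM1 x hx
    have h2 := (abs_le.1 (Complex.abs_re_le_norm (a 0 x))).1
    linarith

end Pool.Agent.N457.AX
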