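import Pool.Agent.N561.AX.Stm
import Pool.Agent.N457.AX.Main

/-!
# Continuation of asymptotic expansions of zero-free functions (`S_CONT`)
-/

set_option autoImplicit false

namespace Pool.Agent.N457.AX

theorem cont : Pool.Agent.N561.AX.S_CONT := by
  intro c r R' R hr h1 h2 Q S Y F n B c₀ A hY hF _ hlog hU hc hA
  exact cont' c r R' R hr h1 h2 Q S Y F n c₀ A hY hF hlog hU hc hA

end Pool.Agent.N457.AX
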