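import Pool.Agent.W719.AX.Gen
import Pool.Agent.W303.AX.UX1
import Pool.Agent.W67.AX.UX2
import Pool.Agent.W414.AX.Ext
import Pool.Agent.W930.HT.Log

/-!
# Uniform asymptotic expansions in powers of `1 / N` on discs: two constants, extension, logarithms
-/

set_option autoImplicit false

namespace Pool.Agent.N457.AX

open Finset Filter Topology Metric
open Pool.Agent.W719.AX

/-! ### Two constants -/

/-- two constants for concentric discs, with the exponent `1 / (m + 1)` -/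
def TCb (c : ℂ) (r R' R : ℝ) (m : ℕ) : Prop :=
  ∀ (h : ℂ → ℂ) (B η : ℝ), 0 < η → η ≤ B → DifferentiableOn ℂ h (ball c R) →
    (∀ z ∈ ball c R, ‖h z‖ ≤ B) → (∀ z ∈ ball c r, ‖h z‖ ≤ η) →
    ∀ z ∈ ball c R', ‖h z‖ ^ (m + 1) ≤ B ^ m * η

theorem rpow_aux {B η s : ℝ} {m : ℕ} (hη : 0 < η) (hB : η ≤ B) (hs : 1 ≤ s * (m + 1)) :
    (η ^ s * B ^ (1 - s)) ^ (m + 1) ≤ B ^ m * η := by
  have hB0 : 0 < B := hη.trans_le hB
  have e1 : (η ^ s * B ^ (1 - s)) ^ (m + 1) =
      η ^ (s * (m + 1)) * B ^ ((1 - s) * (m + 1)) := by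
    rw [mul_pow, ← Real.rpow_natCast (η ^ s), ← Real.rpow_natCast (B ^ (1 - s)),
      ← Real.rpow_mul hη.le, ← Real.rpow_mul hB0.le]
    push_cast
    rfl
  have e2 : η ^ (s * (m + 1)) = η * η ^ (s * (m + 1) - 1) := by
    rw [Real.rpow_sub_one hη.ne']
    field_simp
  have e3 : B ^ m = B ^ (s * (m + 1) - 1) * B ^ ((1 - s) * (m + 1)) := by
    rw [← Real.rpow_add hB0, ← Real.rpow_natCast]
    congr 1
    ring
  rw [e1, e2, e3]
  have h1 : η ^ (s * (m + 1) - 1) ≤ B ^ (s * (m + 1) - 1) :=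
    Real.rpow_le_rpow hη.le hB (by linarith)
  have h2 : 0 ≤ B ^ ((1 - s) * ((m : ℝ) + 1)) := Real.rpow_nonneg hB0.le _
  calc η * η ^ (s * (m + 1) - 1) * B ^ ((1 - s) * (m + 1))
      ≤ η * B ^ (s * (m + 1) - 1) * B ^ ((1 - s) * (m + 1)) := by gcongr
    _ = _ := by ring

theorem tc {c : ℂ} {r R' R : ℝ} (hr : 0 < r) (h1 : r < R') (h2 : R' < R) :
    ∃ m : ℕ, TCb c r R' R m := by
  obtain ⟨u, hu⟩ : ∃ u, u = Real.log ((R' + R) / 2) := ⟨_, rfl⟩
  obtain ⟨l, hl⟩ : ∃ l, l = Real.log (r / 2) := ⟨_, rfl⟩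
  have hR'0 : 0 < R' := hr.trans h1
  have hR0 : 0 < R := hR'0.trans h2
  have heu : Real.exp u = (R' + R) / 2 := by rw [hu, Real.exp_log (by linarith)]
  have hel : Real.exp l = r / 2 := by rw [hl, Real.exp_log (by linarith)]
  have hlu : l < u := by
    rw [← Real.exp_lt_exp, heu, hel]
    linarith
  have hlR : l < Real.log R' := by
    rw [← Real.exp_lt_exp, hel, Real.exp_log hR'0]
    linarith
  have hRu : Real.log R' < u := by
    rw [← Real.exp_lt_exp, heu, Real.exp_log hR'0]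
    linarith
  obtain ⟨s, hs⟩ : ∃ s, s = (u - Real.log R') / (u - l) := ⟨_, rfl⟩
  have hs0 : 0 < s := by rw [hs]; exact div_pos (by linarith) (by linarith)
  obtain ⟨m, hm⟩ := exists_nat_gt (1 / s)
  refine ⟨m, ?_⟩
  intro h B η hη hB hh hhB hhη z hz
  have hB0 : 0 < B := hη.trans_le hB
  by_cases hzr : z ∈ ball c (r / 2)
  · have hz1 := hhη z (ball_subset_ball (by linarith) hzr)
    calc ‖h z‖ ^ (m + 1) ≤ η ^ (m + 1) := pow_le_pow_left₀ (norm_nonneg _) hz1 _
      _ = η ^ m * η := by rw [pow_succ]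
      _ ≤ B ^ m * η := by gcongr
  · have hzc : r / 2 ≤ ‖z - c‖ := by
      rw [mem_ball, dist_eq_norm] at hzr
      exact not_lt.1 hzr
    have hzR : ‖z - c‖ < R' := by rwa [mem_ball, dist_eq_norm] at hz
    have hzpos : 0 < ‖z - c‖ := lt_of_lt_of_le (by linarith) hzc
    have hzne : z - c ≠ 0 := norm_pos_iff.1 hzpos
    obtain ⟨w, hw⟩ : ∃ w, w = Complex.log (z - c) := ⟨_, rfl⟩
    have hew : Complex.exp w = z - c := by rw [hw, Complex.exp_log hzne]
    have hwre : w.re = Real.log ‖z - c‖ := by rw [hw, Complex.log_re]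
    have hmap : ∀ v : ℂ, v.re ≤ u → c + Complex.exp v ∈ ball c R := by
      intro v hv
      rw [mem_ball, dist_eq_norm, add_sub_cancel_left, Complex.norm_exp]
      have := Real.exp_le_exp.2 hv
      rw [heu] at this
      linarith
    have hmapl : ∀ v : ℂ, v.re = l → c + Complex.exp v ∈ ball c r := by
      intro v hv
      rw [mem_ball, dist_eq_norm, add_sub_cancel_left, Complex.norm_exp, hv, hel]
      linarith
    have hlw : l ≤ w.re := by
      rw [hwre, hl]
      exact Real.log_le_log (by linarith) hzc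
    have hwR : w.re ≤ Real.log R' := by
      rw [hwre]
      exact Real.log_le_log hzpos hzR.le
    have hcl : closure (Complex.HadamardThreeLines.verticalStrip l u) ⊆ {v : ℂ | v.re ≤ u} := by
      refine closure_minimal ?_ (isClosed_le Complex.continuous_re continuous_const)
      intro v hv
      exact (Set.mem_Ioo.1 hv).2.le
    have key := Complex.HadamardThreeLines.norm_le_interp_of_mem_verticalClosedStrip'
      (f := fun v => h (c + Complex.exp v)) (z := w) (a := η) (b := B) hlu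
      (show w.re ∈ Set.Icc l u from ⟨hlw, hwR.trans hRu.le⟩)
      (by
        apply DifferentiableOn.diffContOnCl
        refine hh.comp (by fun_prop) ?_
        intro v hv
        exact hmap v (hcl hv))
      (by
        refine ⟨B, ?_⟩
        rintro _ ⟨v, hv, rfl⟩
        exact hhB _ (hmap v (Set.mem_Icc.1 hv).2))
      (by
        intro v hv
        exact hhη _ (hmapl v hv))
      (by
        intro v hv
        exact hhB _ (hmap v (le_of_eq hv)))
    rw [hew, add_sub_cancel] at key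
    obtain ⟨t, ht⟩ : ∃ t, t = 1 - (w.re - l) / (u - l) := ⟨_, rfl⟩
    have hul : 0 < u - l := by linarith
    have hst : s ≤ t := by
      have e : t = (u - w.re) / (u - l) := by
        rw [ht]; field_simp; ring
      rw [e, hs]
      exact div_le_div_of_nonneg_right (by linarith) hul.le
    have e2 : (w.re - l) / (u - l) = 1 - t := by rw [ht]; ring
    rw [← ht, e2] at key
    refine (pow_le_pow_left₀ (norm_nonneg _) key _).trans (rpow_aux hη hB ?_)
    have h3 : 1 ≤ s * m := by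
      rw [div_lt_iff₀ hs0] at hm
      nlinarith
    have h4 : s * m ≤ t * m := mul_le_mul_of_nonneg_right hst (Nat.cast_nonneg m)
    nlinarith

/-! ### Extension of expansions -/

theorem coeffb {c : ℂ} {r R' R : ℝ} {m : ℕ} (h1 : r ≤ R') (h2 : R' ≤ R) (htc : TCb c r R' R m)
    {Q : Type} {S : Set Q} {L : ℕ → ℂ × Q → ℂ} {a : ℕ → ℂ × Q → ℂ} {C₀ : ℝ}
    (hL : ∀ᶠ N : ℕ in atTop, ∀ q ∈ S, DifferentiableOn ℂ (fun z => L N (z, q)) (ball c R) ∧
      ∀ z ∈ ball c R, ‖L N (z, q)‖ ≤ C₀ * N)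
    (hU : UX L a (ball c r ×ˢ S)) (k : ℕ) : ∃ (A : ℂ × Q → ℂ) (M : ℝ), 0 ≤ M ∧
      (∀ q ∈ S, DifferentiableOn ℂ (fun z => A (z, q)) (ball c R')) ∧
      (∀ z ∈ ball c R', ∀ q ∈ S, ‖A (z, q)‖ ≤ M) ∧
      (∀ z ∈ ball c r, ∀ q ∈ S, A (z, q) = a k (z, q)) := by
  obtain ⟨p, hp⟩ : ∃ p, p = (k + 1) * m + 2 * (m + 1) := ⟨_, rfl⟩
  have hp1 : 1 ≤ p := by omega
  obtain ⟨n, hn⟩ : ∃ n, n = k + p := ⟨_, rfl⟩
  obtain ⟨d, hd⟩ := Pool.Agent.W414.AX.exists_c n k (by omega)
  obtain ⟨C1, hC1⟩ := hU n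
  obtain ⟨N1, hN1⟩ := eventually_atTop.1 hC1
  obtain ⟨N2, hN2⟩ := eventually_atTop.1 hL
  set N0 := max (max N1 N2) 1 with hN0
  have hN01 : 1 ≤ N0 := le_max_right _ _
  have hb : ∀ N, N0 ≤ N → ∀ i : ℕ, N1 ≤ 2 ^ i * N ∧ N2 ≤ 2 ^ i * N ∧ N ≤ 2 ^ i * N := by
    intro N hN i
    have h1 : N ≤ 2 ^ i * N := Nat.le_mul_of_pos_left N (by positivity)
    have h2 : N1 ≤ N0 := (le_max_left _ _).trans (le_max_left _ _)
    have h3 : N2 ≤ N0 := (le_max_right _ _).trans (le_max_left _ _)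
    omega
  set W := ∑ i : Fin n, ‖d i‖ with hW
  set W2 := ∑ i : Fin n, ‖d i‖ * 2 ^ (i : ℕ) with hW2
  have hW0 : 0 ≤ W := sum_nonneg fun _ _ => norm_nonneg _
  have hW20 : 0 ≤ W2 := sum_nonneg fun _ _ => by positivity
  set E : ℕ → ℂ × Q → ℂ := fun N x => (N : ℂ) ^ k * ∑ i : Fin n, d i * L (2 ^ (i : ℕ) * N) x
    with hE
  set B0 := W * |C1| with hB0
  set B1 := W2 * |C₀| with hB1
  have hB00 : 0 ≤ B0 := by positivity
  have hB10 : 0 ≤ B1 := by positivity
  -- the small disc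
  have hRE : ∀ N, N0 ≤ N → ∀ z ∈ ball c r, ∀ q ∈ S,
      ‖E N (z, q) - a k (z, q)‖ ≤ B0 / (N : ℝ) ^ p := by
    intro N hN x hx q hq
    have hNpos : (0 : ℝ) < N := by
      have : 1 ≤ N := by omega
      exact_mod_cast this
    have hNC : (N : ℂ) ≠ 0 := by
      have : N ≠ 0 := by omega
      exact_mod_cast this
    have herr : ∀ i : Fin n, ‖L (2 ^ (i : ℕ) * N) (x, q) -
        ∑ j ∈ range n, a j (x, q) / ((2 ^ (i : ℕ) * N : ℕ) : ℂ) ^ j‖ ≤ |C1| / (N : ℝ) ^ n := by
      intro i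
      obtain ⟨h1, -, h3⟩ := hb N hN i
      refine (hN1 _ h1 (x, q) ⟨hx, hq⟩).trans ?_
      have h4 : (N : ℝ) ≤ ((2 ^ (i : ℕ) * N : ℕ) : ℝ) := by exact_mod_cast h3
      calc C1 / ((2 ^ (i : ℕ) * N : ℕ) : ℝ) ^ n ≤ |C1| / ((2 ^ (i : ℕ) * N : ℕ) : ℝ) ^ n :=
            div_le_div_of_nonneg_right (le_abs_self _) (by positivity)
        _ ≤ |C1| / (N : ℝ) ^ n := div_le_div_of_nonneg_left (abs_nonneg _) (by positivity)
            (pow_le_pow_left₀ hNpos.le h4 n)
    have hsum : ∑ i : Fin n, d i * ∑ j ∈ range n, a j (x, q) /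
        ((2 ^ (i : ℕ) * N : ℕ) : ℂ) ^ j = a k (x, q) / (N : ℂ) ^ k := by
      have h1 : ∀ i : Fin n, d i * ∑ j ∈ range n, a j (x, q) /
          ((2 ^ (i : ℕ) * N : ℕ) : ℂ) ^ j = ∑ j ∈ range n, a j (x, q) / (N : ℂ) ^ j *
            (d i * ((1 / 2 : ℂ) ^ (i : ℕ)) ^ j) := by
        intro i
        rw [mul_sum]
        refine sum_congr rfl fun j _ => ?_
        push_cast
        rw [mul_pow, one_div_pow, one_div_pow]
        field_simp
      rw [sum_congr rfl fun i _ => h1 i, sum_comm]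
      have h2 : ∀ j ∈ range n, ∑ i : Fin n, a j (x, q) / (N : ℂ) ^ j *
          (d i * ((1 / 2 : ℂ) ^ (i : ℕ)) ^ j) =
          if j = k then a j (x, q) / (N : ℂ) ^ j else 0 := by
        intro j hj
        rw [← mul_sum, hd j (mem_range.1 hj)]
        split_ifs <;> simp
      rw [sum_congr rfl h2, sum_ite_eq' (range n) k]
      rw [if_pos (mem_range.2 (by omega))]
    have hid : E N (x, q) - a k (x, q) = (N : ℂ) ^ k * ∑ i : Fin n, d i *
        (L (2 ^ (i : ℕ) * N) (x, q) -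
          ∑ j ∈ range n, a j (x, q) / ((2 ^ (i : ℕ) * N : ℕ) : ℂ) ^ j) := by
      simp only [hE, mul_sub, sum_sub_distrib]
      rw [hsum]
      field_simp
    rw [hid, norm_mul, norm_pow, Complex.norm_natCast]
    calc (N : ℝ) ^ k * ‖∑ i : Fin n, d i * (L (2 ^ (i : ℕ) * N) (x, q) -
          ∑ j ∈ range n, a j (x, q) / ((2 ^ (i : ℕ) * N : ℕ) : ℂ) ^ j)‖
        ≤ (N : ℝ) ^ k * ∑ i : Fin n, ‖d i‖ * (|C1| / (N : ℝ) ^ n) := by
          apply mul_le_mul_of_nonneg_left _ (by positivity)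
          refine (norm_sum_le _ _).trans (sum_le_sum fun i _ => ?_)
          rw [norm_mul]
          exact mul_le_mul_of_nonneg_left (herr i) (norm_nonneg _)
      _ = B0 / (N : ℝ) ^ p := by
          have hNn : (N : ℝ) ^ n = (N : ℝ) ^ k * (N : ℝ) ^ p := by
            rw [← pow_add, hn]
          rw [← sum_mul, hNn, hB0, hW]
          field_simp
  -- the large disc
  have hCE : ∀ N, N0 ≤ N → ∀ z ∈ ball c R, ∀ q ∈ S, ‖E N (z, q)‖ ≤ B1 * (N : ℝ) ^ (k + 1) := by
    intro N hN z hz q hq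
    simp only [hE]
    rw [norm_mul, norm_pow, Complex.norm_natCast]
    calc (N : ℝ) ^ k * ‖∑ i : Fin n, d i * L (2 ^ (i : ℕ) * N) (z, q)‖
        ≤ (N : ℝ) ^ k * ∑ i : Fin n, ‖d i‖ * 2 ^ (i : ℕ) * (|C₀| * N) := by
          apply mul_le_mul_of_nonneg_left _ (by positivity)
          refine (norm_sum_le _ _).trans (sum_le_sum fun i _ => ?_)
          rw [norm_mul, mul_assoc]
          apply mul_le_mul_of_nonneg_left _ (norm_nonneg _)
          obtain ⟨-, h2, -⟩ := hb N hN i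
          refine ((hN2 _ h2 q hq).2 z hz).trans ?_
          push_cast
          calc C₀ * (2 ^ (i : ℕ) * (N : ℝ)) ≤ |C₀| * (2 ^ (i : ℕ) * (N : ℝ)) :=
                mul_le_mul_of_nonneg_right (le_abs_self _) (by positivity)
            _ = _ := by ring
      _ = B1 * (N : ℝ) ^ (k + 1) := by
          rw [← sum_mul, hB1, pow_succ]
          ring
  have hED : ∀ N, N0 ≤ N → ∀ q ∈ S, DifferentiableOn ℂ (fun z => E N (z, q)) (ball c R) := by
    intro N hN q hq
    simp only [hE]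
    refine DifferentiableOn.const_mul ?_ _
    refine DifferentiableOn.fun_sum fun i _ => ?_
    exact ((hN2 _ (hb N hN i).2.1 q hq).1).const_mul _
  -- the differences
  set CC := B1 * (1 + 2 ^ (k + 1)) + 2 * B0 + 1 with hCC
  have hCC1 : 1 ≤ CC := by
    have : 0 ≤ B1 * (1 + 2 ^ (k + 1)) := by positivity
    linarith
  have hdif : ∀ N, N0 ≤ N → ∀ x ∈ ball c R' ×ˢ S,
      ‖E N x - E (N + 1) x‖ ≤ CC / (N : ℝ) ^ 2 := by
    rintro N hN ⟨z, q⟩ ⟨hz, hq⟩
    have hN1' : (1 : ℝ) ≤ N := by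
      have : 1 ≤ N := by omega
      exact_mod_cast this
    have hNpos : (0 : ℝ) < N := by linarith
    have hpw : (1 : ℝ) ≤ (N : ℝ) ^ (k + 1) := one_le_pow₀ hN1'
    have hpwp : (1 : ℝ) ≤ (N : ℝ) ^ p := one_le_pow₀ hN1'
    have := htc (fun z => E N (z, q) - E (N + 1) (z, q)) (CC * (N : ℝ) ^ (k + 1))
      (CC / (N : ℝ) ^ p) (by positivity) ?_ ((hED N hN q hq).sub (hED (N + 1) (by omega) q hq))
      ?_ ?_ z hz
    · have h1 : (CC * (N : ℝ) ^ (k + 1)) ^ m * (CC / (N : ℝ) ^ p) =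
          (CC / (N : ℝ) ^ 2) ^ (m + 1) := by
        rw [hp, pow_add (N : ℝ) ((k + 1) * m), pow_mul, pow_mul, mul_pow, div_pow, pow_succ CC m]
        field_simp
      rw [h1] at this
      exact le_of_pow_le_pow_left₀ (Nat.succ_ne_zero m) (by positivity) this
    · calc CC / (N : ℝ) ^ p ≤ CC := div_le_self (by linarith) hpwp
        _ ≤ CC * (N : ℝ) ^ (k + 1) := le_mul_of_one_le_right (by linarith) hpw
    · intro z hz
      have h1 := hCE N hN z hz q hq
      have h2 := hCE (N + 1) (by omega) z hz q hq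
      have h3 : (((N + 1 : ℕ)) : ℝ) ^ (k + 1) ≤ 2 ^ (k + 1) * (N : ℝ) ^ (k + 1) := by
        rw [← mul_pow]
        apply pow_le_pow_left₀ (by positivity)
        push_cast
        linarith
      calc ‖E N (z, q) - E (N + 1) (z, q)‖ ≤ ‖E N (z, q)‖ + ‖E (N + 1) (z, q)‖ := norm_sub_le _ _
        _ ≤ B1 * (N : ℝ) ^ (k + 1) + B1 * (2 ^ (k + 1) * (N : ℝ) ^ (k + 1)) :=
            add_le_add h1 (h2.trans (mul_le_mul_of_nonneg_left h3 hB10))
        _ = B1 * (1 + 2 ^ (k + 1)) * (N : ℝ) ^ (k + 1) := by ring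
        _ ≤ CC * (N : ℝ) ^ (k + 1) := by
            apply mul_le_mul_of_nonneg_right _ (by positivity)
            linarith
    · intro x hx
      have h1 := hRE N hN x hx q hq
      have h2 := hRE (N + 1) (by omega) x hx q hq
      have h3 : B0 / (((N + 1 : ℕ)) : ℝ) ^ p ≤ B0 / (N : ℝ) ^ p := by
        apply div_le_div_of_nonneg_left hB00 (by positivity)
        apply pow_le_pow_left₀ hNpos.le
        push_cast
        linarith
      calc ‖E N (x, q) - E (N + 1) (x, q)‖ =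
          ‖(E N (x, q) - a k (x, q)) - (E (N + 1) (x, q) - a k (x, q))‖ := by
            congr 1; ring
        _ ≤ ‖E N (x, q) - a k (x, q)‖ + ‖E (N + 1) (x, q) - a k (x, q)‖ := norm_sub_le _ _
        _ ≤ B0 / (N : ℝ) ^ p + B0 / (N : ℝ) ^ p := add_le_add h1 (h2.trans h3)
        _ = (2 * B0) / (N : ℝ) ^ p := by ring
        _ ≤ CC / (N : ℝ) ^ p := by
            apply div_le_div_of_nonneg_right _ (by positivity)
            have : 0 ≤ B1 * (1 + 2 ^ (k + 1)) := by positivity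
            linarith
  obtain ⟨F, hF⟩ := Pool.Agent.W414.AX.lim_lemma (ball c R' ×ˢ S) (fun N x => E N x) CC
    (by linarith) N0 hN01 hdif
  have hsub : ball c R' ⊆ ball c R := ball_subset_ball h2
  refine ⟨F, B1 * (N0 : ℝ) ^ (k + 1) + 2 * CC / N0, by positivity, ?_, ?_, ?_⟩
  · intro q hq
    have hunif : TendstoUniformlyOn (fun N z => E N (z, q)) (fun z => F (z, q)) atTop
        (ball c R') := by
      rw [Metric.tendstoUniformlyOn_iff]
      intro ε hε
      have h1 := tendsto_const_div_atTop_nhds_zero_nat (2 * CC)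
      filter_upwards [h1.eventually (gt_mem_nhds hε), eventually_ge_atTop N0] with N hN hN' z hz
      rw [dist_comm, dist_eq_norm]
      exact (hF N hN' (z, q) ⟨hz, hq⟩).trans_lt hN
    refine hunif.tendstoLocallyUniformlyOn.differentiableOn ?_ isOpen_ball
    filter_upwards [eventually_ge_atTop N0] with N hN
    exact (hED N hN q hq).mono hsub
  · intro z hz q hq
    have h1 := hF N0 le_rfl (z, q) ⟨hz, hq⟩
    have h2 := hCE N0 le_rfl z (hsub hz) q hq
    calc ‖F (z, q)‖ = ‖E N0 (z, q) - (E N0 (z, q) - F (z, q))‖ := by congr 1; ring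
      _ ≤ ‖E N0 (z, q)‖ + ‖E N0 (z, q) - F (z, q)‖ := norm_sub_le _ _
      _ ≤ _ := add_le_add h2 h1
  · intro x hx q hq
    have h1 : ∀ᶠ N : ℕ in atTop, ‖F (x, q) - a k (x, q)‖ ≤ (2 * CC + B0) / N := by
      filter_upwards [eventually_ge_atTop N0] with N hN
      have hN1' : (1 : ℝ) ≤ N := by
        have : 1 ≤ N := by omega
        exact_mod_cast this
      have h2 := hF N hN (x, q) ⟨ball_subset_ball h1 hx, hq⟩
      have h3 := hRE N hN x hx q hq
      have h4 : B0 / (N : ℝ) ^ p ≤ B0 / N := by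
        apply div_le_div_of_nonneg_left hB00 (by linarith)
        exact le_self_pow₀ hN1' (by omega)
      calc ‖F (x, q) - a k (x, q)‖ =
          ‖(E N (x, q) - a k (x, q)) - (E N (x, q) - F (x, q))‖ := by congr 1; ring
        _ ≤ ‖E N (x, q) - a k (x, q)‖ + ‖E N (x, q) - F (x, q)‖ := norm_sub_le _ _
        _ ≤ B0 / N + 2 * CC / N := add_le_add (h3.trans h4) h2
        _ = _ := by ring
    have h5 := ge_of_tendsto (tendsto_const_div_atTop_nhds_zero_nat (2 * CC + B0)) h1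
    exact sub_eq_zero.1 (norm_le_zero_iff.1 h5)

/-- expansions of holomorphic functions, which are `O(N)`, extend from small to large discs -/
theorem extb {c : ℂ} {r R' R : ℝ} (hr : 0 < r) (h1 : r < R') (h2 : R' < R)
    {Q : Type} {S : Set Q} {L : ℕ → ℂ × Q → ℂ} {a : ℕ → ℂ × Q → ℂ} {C₀ : ℝ}
    (hL : ∀ᶠ N : ℕ in atTop, ∀ q ∈ S, DifferentiableOn ℂ (fun z => L N (z, q)) (ball c R) ∧
      ∀ z ∈ ball c R, ‖L N (z, q)‖ ≤ C₀ * N)
    (hU : UX L a (ball c r ×ˢ S)) : ∃ A : ℕ → ℂ × Q → ℂ, UX L A (ball c R' ×ˢ S) := by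
  obtain ⟨m1, htc1⟩ := tc (c := c) hr (by linarith : r < (R' + R) / 2)
    (by linarith : (R' + R) / 2 < R)
  obtain ⟨m, htc2⟩ := tc (c := c) hr h1 (by linarith : R' < (R' + R) / 2)
  set R1 := (R' + R) / 2 with hR1
  have hco := coeffb (by linarith : r ≤ R1) (by linarith : R1 ≤ R) htc1 hL hU
  choose A M hM hA1 hA2 hA3 using hco
  refine ⟨A, fun K => ?_⟩
  obtain ⟨n, hn⟩ : ∃ n, n = K * (m + 1) + m := ⟨_, rfl⟩
  have hKn : K ≤ n := by
    rw [hn]
    nlinarith [Nat.zero_le m, Nat.zero_le K]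
  obtain ⟨C1, hC1⟩ := hU n
  set CC := |C₀| + ∑ k ∈ range n, M k + |C1| + 1 with hCC
  have hMs : 0 ≤ ∑ k ∈ range n, M k := sum_nonneg fun k _ => hM k
  have hCC1 : 1 ≤ CC := by
    have := abs_nonneg C₀
    have := abs_nonneg C1
    linarith
  have hsub1 : ball c R1 ⊆ ball c R := ball_subset_ball (by linarith)
  have hsub2 : ball c R' ⊆ ball c R1 := ball_subset_ball (by linarith)
  refine ⟨CC + ∑ k ∈ range n, M k, ?_⟩
  filter_upwards [hC1, hL, eventually_ge_atTop 1] with N hN1 hN2 hN3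
  rintro ⟨z, q⟩ ⟨hz, hq⟩
  have hN1' : (1 : ℝ) ≤ N := by exact_mod_cast hN3
  have hNpos : (0 : ℝ) < N := by linarith
  have hAN : ∀ z ∈ ball c R1, ∀ k, ‖A k (z, q) / (N : ℂ) ^ k‖ ≤ M k / (N : ℝ) ^ k := by
    intro z hz k
    rw [norm_div, norm_pow, Complex.norm_natCast]
    exact div_le_div_of_nonneg_right (hA2 k z hz q hq) (by positivity)
  have hD := htc2 (fun z => L N (z, q) - ∑ k ∈ range n, A k (z, q) / (N : ℂ) ^ k)
    (CC * N) (CC / (N : ℝ) ^ n) (by positivity) ?_ ?_ ?_ ?_ z hz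
  · have e1 : (CC * (N : ℝ)) ^ m * (CC / (N : ℝ) ^ n) = (CC / (N : ℝ) ^ K) ^ (m + 1) := by
      rw [hn, pow_add (N : ℝ) (K * (m + 1)), pow_mul, mul_pow, div_pow, pow_succ CC m]
      field_simp
    rw [e1] at hD
    have hD := le_of_pow_le_pow_left₀ (Nat.succ_ne_zero m) (by positivity) hD
    have e2 : L N (z, q) - ∑ k ∈ range K, A k (z, q) / (N : ℂ) ^ k =
        (L N (z, q) - ∑ k ∈ range n, A k (z, q) / (N : ℂ) ^ k) +
          ∑ k ∈ Ico K n, A k (z, q) / (N : ℂ) ^ k := by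
      rw [← sum_range_add_sum_Ico _ hKn]
      ring
    rw [e2, add_div]
    refine (norm_add_le _ _).trans (add_le_add hD ?_)
    calc ‖∑ k ∈ Ico K n, A k (z, q) / (N : ℂ) ^ k‖
        ≤ ∑ k ∈ Ico K n, M k / (N : ℝ) ^ K := by
          refine (norm_sum_le _ _).trans (sum_le_sum fun k hk => ?_)
          refine (hAN z (hsub2 hz) k).trans ?_
          apply div_le_div_of_nonneg_left (hM k) (by positivity)
          exact pow_le_pow_right₀ hN1' (mem_Ico.1 hk).1
      _ ≤ ∑ k ∈ range n, M k / (N : ℝ) ^ K := by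
          apply sum_le_sum_of_subset_of_nonneg
          · intro k hk
            exact mem_range.2 (mem_Ico.1 hk).2
          · intro k _ _
            exact div_nonneg (hM k) (by positivity)
      _ = _ := by rw [sum_div]
  · calc CC / (N : ℝ) ^ n ≤ CC := div_le_self (by linarith) (one_le_pow₀ hN1')
      _ ≤ CC * N := le_mul_of_one_le_right (by linarith) hN1'
  · refine (((hN2 q hq).1).mono hsub1).sub ?_
    refine DifferentiableOn.fun_sum fun k _ => ?_
    exact (hA1 k q hq).div_const _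
  · intro z hz
    have h1 := (hN2 q hq).2 z (hsub1 hz)
    calc ‖L N (z, q) - ∑ k ∈ range n, A k (z, q) / (N : ℂ) ^ k‖
        ≤ ‖L N (z, q)‖ + ‖∑ k ∈ range n, A k (z, q) / (N : ℂ) ^ k‖ := norm_sub_le _ _
      _ ≤ |C₀| * N + ∑ k ∈ range n, M k := by
          apply add_le_add
          · exact h1.trans (mul_le_mul_of_nonneg_right (le_abs_self _) hNpos.le)
          · refine (norm_sum_le _ _).trans (sum_le_sum fun k _ => ?_)
            exact (hAN z hz k).trans (div_le_self (hM k) (one_le_pow₀ hN1'))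
      _ ≤ |C₀| * N + (∑ k ∈ range n, M k) * N := by
          have := le_mul_of_one_le_right hMs hN1'
          linarith
      _ ≤ CC * N := by
          have h2 : 0 ≤ |C1| * N := by positivity
          have e : CC * N = |C₀| * N + (∑ k ∈ range n, M k) * N + |C1| * N + N := by
            rw [hCC]; ring
          rw [e]
          linarith
  · intro x hx
    have h1 : ∀ k, A k (x, q) = a k (x, q) := fun k => hA3 k x hx q hq
    simp only [h1]
    refine (hN1 (x, q) ⟨hx, hq⟩).trans ?_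
    apply div_le_div_of_nonneg_right _ (by positivity)
    have := le_abs_self C1
    have := abs_nonneg C₀
    linarith

end Pool.Agent.N457.AX
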