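import Pool.Agent.N457.AX.Disc

/-!
# Uniform asymptotic expansions on discs: logarithms
-/

set_option autoImplicit false

namespace Pool.Agent.N457.AX

open Finset Filter Topology Metric
open Pool.Agent.W719.AX

/-- a holomorphic logarithm with a given value at the centre -/
theorem exlog {c : ℂ} {R : ℝ} (hR : 0 < R) {g : ℂ → ℂ} (hg : DifferentiableOn ℂ g (ball c R))
    (h0 : ∀ z ∈ ball c R, g z ≠ 0) {w : ℂ} (hw : Complex.exp w = g c) :
    ∃ f : ℂ → ℂ, DifferentiableOn ℂ f (ball c R) ∧ (∀ z ∈ ball c R, Complex.exp (f z) = g z) ∧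
      f c = w := by
  obtain ⟨f, hf, hfe⟩ := Pool.Agent.W930.HTLog.exists_log isOpen_ball (convex_ball c R)
    ⟨c, mem_ball_self hR⟩ hg h0
  refine ⟨fun z => f z + (w - f c), hf.add_const _, ?_, by ring⟩
  intro z hz
  rw [Complex.exp_add, Complex.exp_sub, hw, hfe c (mem_ball_self hR), hfe z hz,
    div_self (h0 c (mem_ball_self hR)), mul_one]

/-- uniqueness of the logarithm -/
theorem logeq {c : ℂ} {R : ℝ} (hR : 0 < R) {f g : ℂ → ℂ} (hf : DifferentiableOn ℂ f (ball c R))
    (hg : DifferentiableOn ℂ g (ball c R))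
    (h : ∀ z ∈ ball c R, Complex.exp (f z) = Complex.exp (g z)) (hc : f c = g c) :
    ∀ z ∈ ball c R, f z = g z := by
  have hd : DifferentiableOn ℂ (fun z => f z - g z) (ball c R) := hf.sub hg
  have he : ∀ z ∈ ball c R, Complex.exp (f z - g z) = 1 := by
    intro z hz
    rw [Complex.exp_sub, h z hz, div_self (Complex.exp_ne_zero _)]
  have hder : (ball c R).EqOn (deriv fun z => f z - g z) 0 := by
    intro z hz
    have h1 : DifferentiableAt ℂ (fun z => f z - g z) z := hd.differentiableAt
      (isOpen_ball.mem_nhds hz)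
    have h2 := h1.hasDerivAt.cexp
    have h3 : (fun z => Complex.exp (f z - g z)) =ᶠ[𝓝 z] fun _ => 1 := by
      filter_upwards [isOpen_ball.mem_nhds hz] with v hv
      exact he v hv
    have h4 := (h2.congr_of_eventuallyEq h3.symm).unique (hasDerivAt_const z (1 : ℂ))
    rw [he z hz, one_mul] at h4
    simpa using h4
  intro z hz
  have := isOpen_ball.is_const_of_deriv_eq_zero (convex_ball c R).isPreconnected hd hder hz
    (mem_ball_self hR)
  simp only [hc, sub_self] at this
  exact sub_eq_zero.1 this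

/-- Borel–Carathéodory -/
theorem bc {c : ℂ} {R R' : ℝ} (h0 : 0 < R') (hR : R' < R) : ∃ K : ℝ, 0 < K ∧
    ∀ (f : ℂ → ℂ) (M : ℝ), 0 < M → DifferentiableOn ℂ f (ball c R) →
      (∀ z ∈ ball c R, (f z).re ≤ M) → ‖f c‖ ≤ M → ∀ z ∈ ball c R', ‖f z‖ ≤ K * M := by
  refine ⟨2 * R' / (R - R') + (R + R') / (R - R'), ?_, ?_⟩
  · have h1 : 0 < R - R' := by linarith
    have h2 : 0 < R := by linarith
    positivity
  intro f M hM hf hre hfc z hz
  have hmap : ∀ v ∈ ball (0 : ℂ) R, c + v ∈ ball c R := by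
    intro v hv
    rw [mem_ball, dist_eq_norm, add_sub_cancel_left]
    simpa using hv
  have hzn : ‖z - c‖ < R' := by rwa [mem_ball, dist_eq_norm] at hz
  have hpos : 0 < R - R' := by linarith
  have h1 := Complex.borelCaratheodory (f := fun v => f (c + v)) (M := M) (R := R) (z := z - c) hM
    (hf.comp (by fun_prop) hmap) (fun v hv => hre _ (hmap v hv)) (by linarith)
    (by rw [mem_ball_zero_iff]; linarith)
  simp only [add_sub_cancel, add_zero] at h1
  refine h1.trans ?_
  have e : (2 * R' / (R - R') + (R + R') / (R - R')) * M =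
      2 * M * R' / (R - R') + M * (R + R') / (R - R') := by ring
  rw [e]
  have h2 : R - R' ≤ R - ‖z - c‖ := by linarith
  have h3 : 0 ≤ ‖z - c‖ := norm_nonneg _
  have h4 : 0 ≤ ‖f c‖ := norm_nonneg _
  apply add_le_add
  · apply div_le_div₀ (by positivity) _ hpos h2
    nlinarith
  · apply div_le_div₀ (by nlinarith) _ hpos h2
    apply mul_le_mul hfc (by linarith) (by nlinarith) hM.le

end Pool.Agent.N457.AX
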